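import Mathlib

/-!
# Convex progressions of dimension less than `log_2 K` never suffice

For all `d, n ≥ 1` and every `V` there is a set `A` of `n^d` integers with `|A + A| ≤ 2^d |A|` such that fewer than
`n = |A|^(1/d)` translates of a centered convex progression of dimension less than `d` and volume at most `V` never
cover `A`.

The set is the cube `A = {a_0 + a_1 M + … + a_(d-1) M^(d-1) : 0 ≤ a_i < n}` with a huge base `M`. If fewer than `n`
translates cover `A`, then one of them contains more than `n^(d-1)` points of `A`, so the digit vectors of these points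
lie in no hyperplane. Hence there are `d + 1` lattice points `e_0, …, e_d` of the convex body `B ⊆ ℝ^r` whose images in
`A` have affinely independent digit vectors. A pigeonhole argument modulo `2 d H` gives a nontrivial integer relation
between the vectors `e_j - e_0` with coefficients smaller than `H = (2d)^d V + 1` as `r < d`. As `M` is large, the
digit vectors satisfy the same relation, a contradiction.
-/

set_option autoImplicit false

open scoped Pointwise

namespace Pool.Agent.Results.MP_626a77_co.DimensionLowerBound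

/-- A number written with small digits is small. -/
lemma digits_eq_zero {M : ℤ} (hM : 1 ≤ M) : ∀ (d : ℕ) (e : Fin d → ℤ), (∀ i, |e i| ≤ M - 1) →
    ∑ i, e i * M ^ (i : ℕ) = 0 → ∀ i, e i = 0 := by
  intro d
  induction d with
  | zero => intro e _ _ i; exact i.elim0
  | succ d ih =>
    intro e he hsum
    rw [Fin.sum_univ_succ] at hsum
    simp only [Fin.val_zero, pow_zero, mul_one, Fin.val_succ] at hsum
    have h1 : ∑ i : Fin d, e i.succ * M ^ ((i : ℕ) + 1) = M * ∑ i : Fin d, e i.succ * M ^ (i : ℕ) := by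
      rw [Finset.mul_sum]
      exact Finset.sum_congr rfl fun i _ => by ring
    rw [h1] at hsum
    have hdvd : M ∣ e 0 := ⟨-∑ i : Fin d, e i.succ * M ^ (i : ℕ), by linarith⟩
    have h0 : e 0 = 0 := Int.eq_zero_of_abs_lt_dvd hdvd (by have := he 0; linarith)
    rw [h0, zero_add] at hsum
    have h2 : ∑ i : Fin d, e i.succ * M ^ (i : ℕ) = 0 := by
      rcases mul_eq_zero.mp hsum with h | h
      · linarith
      · exact h
    have h3 := ih (fun i => e i.succ) (fun i => he _) h2
    intro i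
    refine Fin.cases h0 (fun j => h3 j) i

/-- A hyperplane contains at most `n ^ (d - 1)` points of the cube. -/
lemma card_hyperplane {d n : ℕ} (f : (Fin d → ℚ) →ₗ[ℚ] ℚ) (hf : f ≠ 0) (D : Finset (Fin d → Fin n)) (c : ℚ)
    (hD : ∀ p ∈ D, f (fun i => ((p i : ℕ) : ℚ)) = c) : D.card ≤ n ^ (d - 1) := by
  classical
  obtain ⟨i0, hi0⟩ : ∃ i0, f (Pi.single i0 1) ≠ 0 := by
    by_contra hcon
    push Not at hcon
    apply hf
    apply LinearMap.pi_ext
    intro i x
    have e : (Pi.single i x : Fin d → ℚ) = x • Pi.single i 1 := by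
      rw [← Pi.single_smul, smul_eq_mul, mul_one]
    rw [e, map_smul, hcon i, smul_zero, LinearMap.zero_apply]
  have hcard : Fintype.card ({j : Fin d // j ≠ i0} → Fin n) = n ^ (d - 1) := by
    rw [Fintype.card_fun, Fintype.card_fin]
    congr 1
    rw [Fintype.card_subtype_compl, Fintype.card_fin]
    simp
  rw [← hcard, ← Finset.card_univ]
  apply Finset.card_le_card_of_injOn (fun p => fun j : {j : Fin d // j ≠ i0} => p j.1)
    (fun _ _ => Finset.mem_coe.mpr (Finset.mem_univ _))
  intro p hp p' hp' h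
  have hoff : ∀ j, j ≠ i0 → p j = p' j := fun j hj => congrFun h ⟨j, hj⟩
  have hdiff : (fun i => ((p i : ℕ) : ℚ)) - (fun i => ((p' i : ℕ) : ℚ)) =
      (((p i0 : ℕ) : ℚ) - ((p' i0 : ℕ) : ℚ)) • (Pi.single i0 1 : Fin d → ℚ) := by
    funext i
    by_cases hi : i = i0
    · subst hi
      simp
    · simp [hoff i hi, Pi.single_eq_of_ne hi]
  have hz : f ((fun i => ((p i : ℕ) : ℚ)) - (fun i => ((p' i : ℕ) : ℚ))) = 0 := by
    rw [map_sub, hD p hp, hD p' hp', sub_self]
  rw [hdiff, map_smul, smul_eq_mul] at hz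
  have h0 : ((p i0 : ℕ) : ℚ) - ((p' i0 : ℕ) : ℚ) = 0 := by
    rcases mul_eq_zero.mp hz with h | h
    · exact h
    · exact absurd h hi0
  have hi : p i0 = p' i0 := by
    apply Fin.ext
    have : ((p i0 : ℕ) : ℚ) = ((p' i0 : ℕ) : ℚ) := by linarith
    exact_mod_cast this
  funext j
  by_cases hj : j = i0
  · rw [hj, hi]
  · exact hoff j hj

/-- A large subset of the cube contains `d + 1` affinely independent points. -/
lemma exists_indep {d n : ℕ} (D : Finset (Fin d → Fin n)) (hD : n ^ (d - 1) < D.card) (p0 : Fin d → Fin n) :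
    ∃ q : Fin d → (Fin d → Fin n), (∀ j, q j ∈ D) ∧
      LinearIndependent ℚ (fun j => (fun i => ((q j i : ℕ) : ℚ) - ((p0 i : ℕ) : ℚ) : Fin d → ℚ)) ∨
      p0 ∉ D := by
  classical
  by_cases hp0 : p0 ∈ D
  swap
  · exact ⟨fun _ => p0, Or.inr hp0⟩
  set S : Set (Fin d → ℚ) := {w | ∃ p ∈ D, w = fun i => ((p i : ℕ) : ℚ) - ((p0 i : ℕ) : ℚ)} with hS
  have hspan : Submodule.span ℚ S = ⊤ := by
    by_contra hne
    obtain ⟨f, hf, hle⟩ := Submodule.exists_le_ker_of_lt_top _ (lt_top_iff_ne_top.mpr hne)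
    have := card_hyperplane f hf D (f (fun i => ((p0 i : ℕ) : ℚ))) (by
      intro p hp
      have hmem : (fun i => ((p i : ℕ) : ℚ) - ((p0 i : ℕ) : ℚ) : Fin d → ℚ) ∈ Submodule.span ℚ S :=
        Submodule.subset_span ⟨p, hp, rfl⟩
      have hk := hle hmem
      rw [LinearMap.mem_ker] at hk
      have e : (fun i => ((p i : ℕ) : ℚ) - ((p0 i : ℕ) : ℚ) : Fin d → ℚ) =
          (fun i => ((p i : ℕ) : ℚ)) - (fun i => ((p0 i : ℕ) : ℚ)) := rfl
      rw [e, map_sub] at hk
      linarith)
    omega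
  obtain ⟨b, hbS, hbspan, hbli⟩ := exists_linearIndependent ℚ S
  rw [hspan] at hbspan
  let Bs : Module.Basis b ℚ (Fin d → ℚ) := Module.Basis.mk hbli (by rw [Subtype.range_coe, hbspan])
  let e : Fin d ≃ b := (Bs.indexEquiv (Pi.basisFun ℚ (Fin d))).symm
  have hch : ∀ j, ∃ p ∈ D, (e j : Fin d → ℚ) = fun i => ((p i : ℕ) : ℚ) - ((p0 i : ℕ) : ℚ) :=
    fun j => hbS (e j).2
  choose q hqD hq using hch
  refine ⟨q, Or.inl ⟨hqD, ?_⟩⟩
  have h1 : LinearIndependent ℚ (fun j => ((e j : b) : Fin d → ℚ)) := hbli.comp e e.injective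
  have h2 : (fun j => (fun i => ((q j i : ℕ) : ℚ) - ((p0 i : ℕ) : ℚ) : Fin d → ℚ)) =
      (fun j => ((e j : b) : Fin d → ℚ)) := by
    funext j
    exact (hq j).symm
  rw [h2]
  exact h1

/-- Sub-convex combinations of points of a convex set containing `0`. -/
lemma sum_mem_of_le {ι : Type*} [Fintype ι] {r : ℕ} {B : Set (Fin r → ℝ)} (hB : Convex ℝ B) (h0 : (0 : Fin r → ℝ) ∈ B)
    (w : ι → ℝ) (y : ι → (Fin r → ℝ)) (hw : ∀ j, 0 ≤ w j) (hw1 : ∑ j, w j ≤ 1) (hy : ∀ j, y j ∈ B) :
    ∑ j, w j • y j ∈ B := by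
  rcases eq_or_lt_of_le (Finset.sum_nonneg fun j (_ : j ∈ Finset.univ) => hw j) with h | h
  · have hz : ∀ j, w j = 0 := by
      intro j
      exact (Finset.sum_eq_zero_iff_of_nonneg fun j _ => hw j).mp h.symm j (Finset.mem_univ j)
    simp only [hz, zero_smul, Finset.sum_const_zero]
    exact h0
  · have hin : ∑ j, (w j / ∑ j, w j) • y j ∈ B := by
      apply hB.sum_mem (fun j _ => div_nonneg (hw j) h.le)
      · rw [← Finset.sum_div, div_self h.ne']
      · exact fun j _ => hy j
    have e : ∑ j, w j • y j = (∑ j, w j) • ∑ j, (w j / ∑ j, w j) • y j := by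
      rw [Finset.smul_sum]
      refine Finset.sum_congr rfl fun j _ => ?_
      rw [smul_smul, mul_div_cancel₀ _ h.ne']
    rw [e]
    exact hB.smul_mem_of_zero_mem h0 hin ⟨h.le, hw1⟩

/-- The lattice points of `B`. -/
def lat {r : ℕ} (B : Set (Fin r → ℝ)) : Set (Fin r → ℤ) := {x | (fun i => (x i : ℝ)) ∈ B}

lemma lat_finite {r : ℕ} {B : Set (Fin r → ℝ)} (hB : IsCompact B) : (lat B).Finite := by
  obtain ⟨R, hR⟩ := hB.isBounded.exists_norm_le
  have hsub : lat B ⊆ (Set.univ.pi fun _ : Fin r => (Set.Icc (-⌈R⌉) ⌈R⌉ : Set ℤ)) := by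
    intro x hx i _
    have h1 := hR _ hx
    have h2 : |(x i : ℝ)| ≤ R := by
      have := norm_le_pi_norm (fun i => (x i : ℝ)) i
      rw [Real.norm_eq_abs] at this
      exact this.trans h1
    rw [abs_le] at h2
    have h3 := Int.le_ceil R
    rw [Set.mem_Icc]
    constructor
    · have : (-(⌈R⌉ : ℤ) : ℝ) ≤ (x i : ℝ) := by linarith
      exact_mod_cast this
    · have : (x i : ℝ) ≤ (⌈R⌉ : ℤ) := by linarith
      exact_mod_cast this
  exact (Set.Finite.pi fun _ => Set.finite_Icc _ _).subset hsub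

/-- Few lattice points give a small relation between differences. -/
lemma exists_relation {r d V : ℕ} (hrd : r < d) {B : Set (Fin r → ℝ)} (hconv : Convex ℝ B) (hcomp : IsCompact B)
    (hsymm : ∀ x ∈ B, -x ∈ B) (hV : (lat B).ncard ≤ V) (e0 : Fin r → ℤ) (he0 : e0 ∈ lat B)
    (e : Fin d → (Fin r → ℤ)) (he : ∀ j, e j ∈ lat B) :
    ∃ k : Fin d → ℤ, k ≠ 0 ∧ (∀ j, |k j| ≤ ((2 * d) ^ d * V + 1 : ℕ)) ∧ ∀ i, ∑ j, k j * (e j i - e0 i) = 0 := by
  classical
  obtain ⟨H, hH⟩ : ∃ H : ℕ, H = (2 * d) ^ d * V + 1 := ⟨_, rfl⟩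
  rw [← hH]
  have hHpos : 0 < H := by omega
  obtain ⟨m, hm⟩ : ∃ m : ℕ, m = 2 * d * H := ⟨_, rfl⟩
  have hd : 0 < d := by omega
  have hmpos : 0 < m := by rw [hm]; positivity
  have : NeZero m := ⟨hmpos.ne'⟩
  let z : (Fin d → Fin H) → (Fin r → ℤ) := fun c i => ∑ j, ((c j : ℕ) : ℤ) * (e j i - e0 i)
  let ρ : (Fin d → Fin H) → (Fin r → ZMod m) := fun c i => ((z c i : ℤ) : ZMod m)
  -- a residue class with more than V members
  have hlt : (Finset.univ : Finset (Fin r → ZMod m)).card * V < (Finset.univ : Finset (Fin d → Fin H)).card := by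
    rw [Finset.card_univ, Finset.card_univ, Fintype.card_fun, Fintype.card_fun, ZMod.card, Fintype.card_fin,
      Fintype.card_fin, Fintype.card_fin]
    have h1 : m ^ r ≤ m ^ (d - 1) := Nat.pow_le_pow_right hmpos (by omega)
    have h2 : m ^ (d - 1) ≤ (2 * d) ^ d * H ^ (d - 1) := by
      rw [hm, mul_pow]
      exact Nat.mul_le_mul_right _ (Nat.pow_le_pow_right (by omega) (by omega))
    have h3 : H ^ d = H ^ (d - 1) * H := by
      rw [← pow_succ]
      congr 1
      omega
    calc m ^ r * V ≤ ((2 * d) ^ d * H ^ (d - 1)) * V := Nat.mul_le_mul_right _ (h1.trans h2)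
      _ = H ^ (d - 1) * ((2 * d) ^ d * V) := by ring
      _ < H ^ (d - 1) * H := by
          apply Nat.mul_lt_mul_of_pos_left _ (Nat.pow_pos hHpos)
          omega
      _ = H ^ d := h3.symm
  obtain ⟨y, -, hy⟩ := Finset.exists_lt_card_fiber_of_mul_lt_card_of_maps_to (f := ρ)
    (fun a _ => Finset.mem_univ _) hlt
  obtain ⟨c0, hc0⟩ : (Finset.univ.filter (fun c => ρ c = y)).Nonempty := by
    rw [← Finset.card_pos]; omega
  rw [Finset.mem_filter] at hc0
  -- the scaled differences
  have hdvd : ∀ c, ρ c = y → ∀ i, (m : ℤ) ∣ z c i - z c0 i := by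
    intro c hc i
    have h1 : ((z c i : ℤ) : ZMod m) = ((z c0 i : ℤ) : ZMod m) := by
      have := congrFun (hc.trans hc0.2.symm) i
      exact this
    rw [eq_comm, ZMod.intCast_eq_intCast_iff_dvd_sub] at h1
    exact h1
  let g : (Fin d → Fin H) → (Fin r → ℤ) := fun c i => (z c i - z c0 i) / m
  have h0B : (0 : Fin r → ℝ) ∈ B := by
    have h1 := hconv he0 (hsymm _ he0) (a := 1 / 2) (b := 1 / 2) (by norm_num) (by norm_num) (by norm_num)
    have e1 : (1 / 2 : ℝ) • (fun i => (e0 i : ℝ)) + (1 / 2 : ℝ) • -(fun i => (e0 i : ℝ)) = (0 : Fin r → ℝ) := by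
      rw [smul_neg, add_neg_cancel]
    rw [e1] at h1
    exact h1
  have hgmem : ∀ c ∈ Finset.univ.filter (fun c => ρ c = y), g c ∈ (lat_finite hcomp).toFinset := by
    intro c hc
    rw [Finset.mem_filter] at hc
    rw [Set.Finite.mem_toFinset]
    have hmr : (0 : ℝ) < (m : ℝ) := by exact_mod_cast hmpos
    -- half differences with signs
    have hy' : ∀ j : Fin d, ((if c0 j ≤ c j then (1 : ℝ) else -1) / 2) •
        ((fun i => (e j i : ℝ)) - (fun i => (e0 i : ℝ))) ∈ B := by
      intro j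
      have h1 := hconv (he j) (hsymm _ he0) (a := 1 / 2) (b := 1 / 2) (by norm_num) (by norm_num) (by norm_num)
      have h2 : (1 / 2 : ℝ) • (fun i => (e j i : ℝ)) + (1 / 2 : ℝ) • -(fun i => (e0 i : ℝ)) =
          ((1 : ℝ) / 2) • ((fun i => (e j i : ℝ)) - (fun i => (e0 i : ℝ))) := by
        rw [smul_sub, smul_neg, sub_eq_add_neg]
      rw [h2] at h1
      split_ifs
      · exact h1
      · have h3 := hsymm _ h1
        have e3 : ((-1 : ℝ) / 2) • ((fun i => (e j i : ℝ)) - (fun i => (e0 i : ℝ))) =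
            -(((1 : ℝ) / 2) • ((fun i => (e j i : ℝ)) - (fun i => (e0 i : ℝ)))) := by
          rw [← neg_smul]
          congr 1
          norm_num
        rw [e3]
        exact h3
    have habs : ∀ j : Fin d, |((c j : ℕ) : ℝ) - ((c0 j : ℕ) : ℝ)| ≤ H := by
      intro j
      have a1 : ((c j : ℕ) : ℝ) ≤ H := by exact_mod_cast (c j).2.le
      have a2 : ((c0 j : ℕ) : ℝ) ≤ H := by exact_mod_cast (c0 j).2.le
      have a3 : (0 : ℝ) ≤ ((c j : ℕ) : ℝ) := Nat.cast_nonneg _
      have a4 : (0 : ℝ) ≤ ((c0 j : ℕ) : ℝ) := Nat.cast_nonneg _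
      rw [abs_le]
      constructor <;> linarith
    have hsum := sum_mem_of_le hconv h0B
      (fun j : Fin d => 2 * |((c j : ℕ) : ℝ) - ((c0 j : ℕ) : ℝ)| / m) _
      (fun j => by positivity) (by
        calc ∑ j : Fin d, 2 * |((c j : ℕ) : ℝ) - ((c0 j : ℕ) : ℝ)| / m ≤ ∑ _j : Fin d, 2 * (H : ℝ) / m :=
              Finset.sum_le_sum fun j _ => by
                apply div_le_div_of_nonneg_right _ hmr.le
                linarith [habs j]
          _ = 1 := by
              rw [Finset.sum_const, Finset.card_univ, Fintype.card_fin, nsmul_eq_mul, hm]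
              push_cast
              have hdr : (0 : ℝ) < (d : ℝ) := by exact_mod_cast hd
              have hHr : (0 : ℝ) < (H : ℝ) := by exact_mod_cast hHpos
              field_simp
          _ ≤ 1 := le_rfl) hy'
    have heq : (fun i => ((g c i : ℤ) : ℝ)) = ∑ j : Fin d, (2 * |((c j : ℕ) : ℝ) - ((c0 j : ℕ) : ℝ)| / m) •
        (((if c0 j ≤ c j then (1 : ℝ) else -1) / 2) • ((fun i => (e j i : ℝ)) - (fun i => (e0 i : ℝ)))) := by
      funext i
      rw [Finset.sum_apply]
      have h1 : ((g c i : ℤ) : ℝ) = ((z c i : ℝ) - (z c0 i : ℝ)) / m := by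
        have := Int.ediv_mul_cancel (hdvd c hc.2 i)
        have h2 : (((z c i - z c0 i) / m * m : ℤ) : ℝ) = ((z c i - z c0 i : ℤ) : ℝ) := by rw [this]
        push_cast at h2
        rw [eq_div_iff hmr.ne']
        show ((((z c i - z c0 i) / (m : ℤ) : ℤ)) : ℝ) * m = _
        exact h2
      rw [h1]
      simp only [z]
      push_cast
      rw [← Finset.sum_sub_distrib, Finset.sum_div]
      refine Finset.sum_congr rfl fun j _ => ?_
      simp only [Pi.smul_apply, Pi.sub_apply, smul_eq_mul]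
      split_ifs with hle
      · have : ((c0 j : ℕ) : ℝ) ≤ ((c j : ℕ) : ℝ) := by exact_mod_cast hle
        rw [abs_of_nonneg (by linarith)]
        ring
      · have : ((c j : ℕ) : ℝ) ≤ ((c0 j : ℕ) : ℝ) := by
          have := (not_le.mp hle).le
          exact_mod_cast this
        rw [abs_of_nonpos (by linarith)]
        ring
    show (fun i => ((g c i : ℤ) : ℝ)) ∈ B
    rw [heq]
    exact hsum
  have hcardV : (lat_finite hcomp).toFinset.card ≤ V := by
    rw [← Set.ncard_eq_toFinset_card _ (lat_finite hcomp)]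
    exact hV
  obtain ⟨c, hc, c', hc', hne, hgg⟩ := Finset.exists_ne_map_eq_of_card_lt_of_maps_to
    (lt_of_le_of_lt hcardV hy) hgmem
  rw [Finset.mem_filter] at hc hc'
  refine ⟨fun j => ((c j : ℕ) : ℤ) - ((c' j : ℕ) : ℤ), ?_, ?_, ?_⟩
  · intro h
    apply hne
    funext j
    have := congrFun h j
    simp only [Pi.zero_apply] at this
    apply Fin.ext
    omega
  · intro j
    have := (c j).2
    have := (c' j).2
    show |((c j : ℕ) : ℤ) - ((c' j : ℕ) : ℤ)| ≤ (H : ℤ)
    rw [abs_le]
    constructor <;> omega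
  · intro i
    have h1 : z c i - z c0 i = z c' i - z c0 i := by
      have := congrFun hgg i
      simp only [g] at this
      exact (Int.ediv_left_inj (hdvd c hc.2 i) (hdvd c' hc'.2 i)).mp this
    have h2 : z c i = z c' i := by linarith
    simp only [z] at h2
    have h3 : ∑ j, (((c j : ℕ) : ℤ) - ((c' j : ℕ) : ℤ)) * (e j i - e0 i) =
        ∑ j, ((c j : ℕ) : ℤ) * (e j i - e0 i) - ∑ j, ((c' j : ℕ) : ℤ) * (e j i - e0 i) := by
      rw [← Finset.sum_sub_distrib]
      exact Finset.sum_congr rfl fun j _ => by ring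
    rw [h3, h2, sub_self]

/-- The integer with digits `p` in base `M`. -/
def num {d n : ℕ} (M : ℕ) (p : Fin d → Fin n) : ℤ := ∑ i, ((p i : ℕ) : ℤ) * (M : ℤ) ^ (i : ℕ)

lemma num_injective {d n M : ℕ} (hn : n ≤ M) (hM : 1 ≤ M) : Function.Injective (num (d := d) (n := n) M) := by
  intro p q h
  have h1 : ∑ i, (((p i : ℕ) : ℤ) - ((q i : ℕ) : ℤ)) * (M : ℤ) ^ (i : ℕ) = 0 := by
    have : ∑ i, (((p i : ℕ) : ℤ) - ((q i : ℕ) : ℤ)) * (M : ℤ) ^ (i : ℕ) = num M p - num M q := by
      unfold num
      rw [← Finset.sum_sub_distrib]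
      exact Finset.sum_congr rfl fun i _ => by ring
    rw [this, h, sub_self]
  have h2 := digits_eq_zero (M := M) (by exact_mod_cast hM) d (fun i => ((p i : ℕ) : ℤ) - ((q i : ℕ) : ℤ)) (by
    intro i
    have := (p i).2
    have := (q i).2
    show |((p i : ℕ) : ℤ) - ((q i : ℕ) : ℤ)| ≤ (M : ℤ) - 1
    rw [abs_le]
    constructor <;> omega) h1
  funext i
  have := h2 i
  apply Fin.ext
  omega

/-- **The dimension in the conjecture must be at least `log_2 K`, whatever the number of translates.** For all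
`d, n ≥ 1` and every `V` there is a set `A` of `n ^ d` integers with `|A + A| ≤ 2 ^ d |A|` such that for every centered
convex progression `φ : ℤ^r ∩ B → ℤ`, `φ(x) = ∑ v_i x_i`, of dimension `r < d` and volume `|ℤ^r ∩ B| ≤ V`, at least
`n = |A|^(1/d)` translates of its image are needed to cover `A`. -/
theorem result : ∀ d n V : ℕ, 1 ≤ d → 1 ≤ n → ∃ A : Finset ℤ, A.card = n ^ d ∧ (A + A).card ≤ 2 ^ d * A.card ∧
    ∀ (r : ℕ) (B : Set (Fin r → ℝ)) (v : Fin r → ℤ) (T : Finset ℤ), r < d →
      Convex ℝ B → IsCompact B → (interior B).Nonempty → (∀ x ∈ B, -x ∈ B) →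
      {x : Fin r → ℤ | (fun i => (x i : ℝ)) ∈ B}.ncard ≤ V →
      (∀ a ∈ A, ∃ t ∈ T, ∃ x : Fin r → ℤ, (fun i => (x i : ℝ)) ∈ B ∧ a = t + ∑ i, v i * x i) →
      n ≤ T.card := by
  classical
  intro d n V hd hn
  obtain ⟨H, hH⟩ : ∃ H : ℕ, H = (2 * d) ^ d * V + 1 := ⟨_, rfl⟩
  obtain ⟨M, hM⟩ : ∃ M : ℕ, M = d * H * n + 1 := ⟨_, rfl⟩
  have hHpos : 1 ≤ H := by omega
  have hM1 : 1 ≤ M := by omega
  have hnM : n ≤ M := by
    have : 1 * n ≤ d * H * n := Nat.mul_le_mul_right _ (Nat.mul_pos hd hHpos)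
    omega
  have hinj := num_injective (d := d) hnM hM1
  set A : Finset ℤ := (Finset.univ : Finset (Fin d → Fin n)).image (num M) with hA
  have hcard : A.card = n ^ d := by
    rw [hA, Finset.card_image_of_injective _ hinj, Finset.card_univ, Fintype.card_fun, Fintype.card_fin,
      Fintype.card_fin]
  refine ⟨A, hcard, ?_, ?_⟩
  · have hsub : A + A ⊆ (Finset.univ : Finset (Fin d → Fin (2 * n))).image (num M) := by
      intro x hx
      rw [Finset.mem_add] at hx
      obtain ⟨a, ha, b, hb, rfl⟩ := hx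
      rw [hA, Finset.mem_image] at ha hb
      obtain ⟨p, -, rfl⟩ := ha
      obtain ⟨q, -, rfl⟩ := hb
      rw [Finset.mem_image]
      refine ⟨fun i => ⟨(p i : ℕ) + (q i : ℕ), by have := (p i).2; have := (q i).2; omega⟩, Finset.mem_univ _, ?_⟩
      unfold num
      rw [← Finset.sum_add_distrib]
      refine Finset.sum_congr rfl fun i _ => ?_
      push_cast
      ring
    calc (A + A).card ≤ ((Finset.univ : Finset (Fin d → Fin (2 * n))).image (num M)).card :=
          Finset.card_le_card hsub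
      _ ≤ (Finset.univ : Finset (Fin d → Fin (2 * n))).card := Finset.card_image_le
      _ = 2 ^ d * A.card := by
          rw [hcard, Finset.card_univ, Fintype.card_fun, Fintype.card_fin, Fintype.card_fin, mul_pow]
  · intro r B v T hrd hconv hcomp _ hsymm hV hcov
    by_contra hlt
    push Not at hlt
    let D : ℤ → Finset (Fin d → Fin n) := fun t =>
      Finset.univ.filter fun p => ∃ x ∈ lat B, num M p = t + ∑ i, v i * x i
    obtain ⟨t, htT, ht⟩ : ∃ t ∈ T, n ^ (d - 1) < (D t).card := by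
      by_contra hcon
      push Not at hcon
      have h1 : (Finset.univ : Finset (Fin d → Fin n)) ⊆ T.biUnion D := by
        intro p _
        obtain ⟨t, ht, x, hx, hpx⟩ := hcov (num M p) (by
          rw [hA]; exact Finset.mem_image_of_mem _ (Finset.mem_univ _))
        rw [Finset.mem_biUnion]
        exact ⟨t, ht, by rw [Finset.mem_filter]; exact ⟨Finset.mem_univ _, x, hx, hpx⟩⟩
      have h2 : n ^ d ≤ T.card * n ^ (d - 1) := by
        calc n ^ d = (Finset.univ : Finset (Fin d → Fin n)).card := by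
              rw [Finset.card_univ, Fintype.card_fun, Fintype.card_fin, Fintype.card_fin]
          _ ≤ (T.biUnion D).card := Finset.card_le_card h1
          _ ≤ ∑ t ∈ T, (D t).card := Finset.card_biUnion_le
          _ ≤ ∑ _t ∈ T, n ^ (d - 1) := Finset.sum_le_sum hcon
          _ = T.card * n ^ (d - 1) := by rw [Finset.sum_const, smul_eq_mul]
      have h3 : n ^ d = n * n ^ (d - 1) := by
        rw [mul_comm, ← pow_succ]
        congr 1
        omega
      rw [h3] at h2
      have := Nat.le_of_mul_le_mul_right h2 (Nat.pow_pos hn)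
      omega
    obtain ⟨p0, hp0⟩ : (D t).Nonempty := by rw [← Finset.card_pos]; omega
    obtain ⟨q, hq⟩ := exists_indep (D t) ht p0
    rcases hq with ⟨hqD, hli⟩ | hq
    swap
    · exact hq hp0
    have hqx : ∀ j, ∃ x ∈ lat B, num M (q j) = t + ∑ i, v i * x i := by
      intro j
      have := hqD j
      rw [Finset.mem_filter] at this
      exact this.2
    choose e heB he using hqx
    obtain ⟨e0, he0B, he0⟩ : ∃ x ∈ lat B, num M p0 = t + ∑ i, v i * x i := by
      rw [Finset.mem_filter] at hp0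
      exact hp0.2
    obtain ⟨k, hk0, hkH, hk⟩ := exists_relation hrd hconv hcomp hsymm hV e0 he0B e heB
    rw [← hH] at hkH
    -- the relation for the integers
    have hrel : ∑ j, k j * (num M (q j) - num M p0) = 0 := by
      have h1 : ∀ j, num M (q j) - num M p0 = ∑ i, v i * (e j i - e0 i) := by
        intro j
        rw [he j, he0]
        have : ∑ i, v i * (e j i - e0 i) = ∑ i, v i * e j i - ∑ i, v i * e0 i := by
          rw [← Finset.sum_sub_distrib]
          exact Finset.sum_congr rfl fun i _ => by ring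
        rw [this]
        ring
      simp only [h1, Finset.mul_sum]
      rw [Finset.sum_comm]
      apply Finset.sum_eq_zero
      intro i _
      have h2 : ∑ j, k j * (v i * (e j i - e0 i)) = v i * ∑ j, k j * (e j i - e0 i) := by
        rw [Finset.mul_sum]
        exact Finset.sum_congr rfl fun j _ => by ring
      rw [h2, hk i, mul_zero]
    have hdig : ∑ i, (∑ j, k j * (((q j i : ℕ) : ℤ) - ((p0 i : ℕ) : ℤ))) * (M : ℤ) ^ (i : ℕ) = 0 := by
      rw [← hrel]
      unfold num
      have h1 : ∀ j, k j * (∑ i, ((q j i : ℕ) : ℤ) * (M : ℤ) ^ (i : ℕ) - ∑ i, ((p0 i : ℕ) : ℤ) * (M : ℤ) ^ (i : ℕ)) =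
          ∑ i, k j * (((q j i : ℕ) : ℤ) - ((p0 i : ℕ) : ℤ)) * (M : ℤ) ^ (i : ℕ) := by
        intro j
        rw [← Finset.sum_sub_distrib, Finset.mul_sum]
        exact Finset.sum_congr rfl fun i _ => by ring
      simp only [h1]
      rw [Finset.sum_comm]
      exact Finset.sum_congr rfl fun i _ => by rw [Finset.sum_mul]
    have hzero := digits_eq_zero (M := M) (by exact_mod_cast hM1) d
      (fun i => ∑ j, k j * (((q j i : ℕ) : ℤ) - ((p0 i : ℕ) : ℤ))) (by
        intro i
        have h1 : ∀ j, |k j * (((q j i : ℕ) : ℤ) - ((p0 i : ℕ) : ℤ))| ≤ (H : ℤ) * n := by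
          intro j
          rw [abs_mul]
          apply mul_le_mul (hkH j) _ (abs_nonneg _) (Nat.cast_nonneg _)
          have := (q j i).2
          have := (p0 i).2
          rw [abs_le]
          constructor <;> omega
        calc |∑ j, k j * (((q j i : ℕ) : ℤ) - ((p0 i : ℕ) : ℤ))|
            ≤ ∑ j, |k j * (((q j i : ℕ) : ℤ) - ((p0 i : ℕ) : ℤ))| := Finset.abs_sum_le_sum_abs _ _
          _ ≤ ∑ _j : Fin d, (H : ℤ) * n := Finset.sum_le_sum fun j _ => h1 j
          _ = (M : ℤ) - 1 := by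
              rw [Finset.sum_const, Finset.card_univ, Fintype.card_fin, nsmul_eq_mul, hM]
              push_cast
              ring) hdig
    apply hk0
    have hall := Fintype.linearIndependent_iff.mp hli (fun j => (k j : ℚ)) (by
      funext i
      rw [Finset.sum_apply]
      simp only [Pi.smul_apply, smul_eq_mul, Pi.zero_apply]
      have := congrArg (fun z : ℤ => (z : ℚ)) (hzero i)
      push_cast at this
      exact this)
    funext j
    have := hall j
    exact_mod_cast this

end Pool.Agent.Results.MP_626a77_co.DimensionLowerBound
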